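import Pool.Agent.W770.PC.Stms

/-! Project PC, part L2x. -/

set_option autoImplicit false

open MeasureTheory Set Filter Topology
open scoped ENNReal NNReal

namespace Pool.Agent.W479.PC

open Pool.Agent.W770.PC

lemma ee_cont : Continuous ee := by
  unfold ee
  fun_prop

lemma ee_add (x y : ℝ) : ee (x + y) = ee x * ee y := by
  unfold ee
  rw [← Complex.exp_add]
  congr 1
  push_cast
  ring

lemma ee_norm (x : ℝ) : ‖ee x‖ = 1 := by
  unfold ee
  exact Complex.norm_exp_ofReal_mul_I x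

theorem L2x_thm (h1 : S_gg) (h2 : S_part) (h3 : S_cell) (h4 : S_planch) : S_L2x := by
  intro B
  refine ⟨(2 * Real.pi) ^ 2 * (B ^ 2 * 4), by positivity, ?_⟩
  intro ψ g hψ hg a S hS
  have hψc : Continuous ψ := hψ.sm.continuous
  have hgc : Continuous g := hg.continuous
  have hggc : Continuous (gg g a) := (h1.2.1 g a).continuous
  have hbc : ∀ k, Continuous (bet a k) := fun k => (h1.1 a k).continuous
  have hψb : ∀ y, ‖ψ y‖ ≤ B := by
    intro y
    have := hψ.b1 0 (by norm_num) y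
    rwa [iteratedDeriv_zero] at this
  have hSqc : IsCompact Sq := isCompact_Icc.prod isCompact_Icc
  -- the function U
  obtain ⟨U, hU⟩ : ∃ U : ℝ × ℝ → ℂ, U = fun y =>
    ψ y * ((gg g a y * ∑ k ∈ S, bet a k y : ℝ) : ℂ) * ee (g y) := ⟨_, rfl⟩
  have hUc : Continuous U := by
    rw [hU]
    refine (hψc.mul (Complex.continuous_ofReal.comp (hggc.mul ?_))).mul (ee_cont.comp hgc)
    exact continuous_finsetSum _ fun k _ => hbc k
  have hUs : HasCompactSupport U := by
    refine HasCompactSupport.intro hSqc fun y hy => ?_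
    rw [hU]
    simp only [hψ.supp y hy, zero_mul]
  have hUi : Integrable U := hUc.integrable_of_hasCompactSupport hUs
  have hUm : MemLp U 2 := hUc.memLp_of_hasCompactSupport hUs
  have hsumJ : ∀ x : ℝ × ℝ, ∑ k ∈ S, J ψ g a k x = ∫ y, U y * ee (x.1 * y.1 + x.2 * y.2) := by
    intro x
    unfold J
    rw [← integral_finsetSum]
    · refine integral_congr_ae (Filter.Eventually.of_forall fun y => ?_)
      simp only [hU]
      rw [Complex.ofReal_mul, Complex.ofReal_sum]
      have e1 : ee (g y + x.1 * y.1 + x.2 * y.2) = ee (g y) * ee (x.1 * y.1 + x.2 * y.2) := by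
        rw [← ee_add]; ring_nf
      simp only [e1, Complex.ofReal_mul]
      rw [Finset.mul_sum, Finset.mul_sum, Finset.sum_mul, Finset.sum_mul]
      refine Finset.sum_congr rfl fun k _ => ?_
      ring
    · intro k _
      refine Continuous.integrable_of_hasCompactSupport ?_ ?_
      · refine (hψc.mul (Complex.continuous_ofReal.comp (hggc.mul (hbc k)))).mul
          (ee_cont.comp ?_)
        fun_prop
      · refine HasCompactSupport.intro hSqc fun y hy => ?_
        simp only [hψ.supp y hy, zero_mul]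
  have hlhs : ∫⁻ x, ‖∑ k ∈ S, J ψ g a k x‖ₑ ^ 2 =
      ENNReal.ofReal ((2 * Real.pi) ^ 2) * ∫⁻ y, ‖U y‖ₑ ^ 2 := by
    rw [← h4 U hUi hUm]
    refine lintegral_congr fun x => ?_
    rw [hsumJ x]
  rw [hlhs]
  -- bound of the integral of U
  have hbet : ∀ k ∈ S, ∀ y, 0 ≤ bet a k y ∧ bet a k y ≤ 1 := by
    intro k hk y
    have := h2.2.1 a y {k} (by
      intro z hz
      rw [Finset.mem_singleton] at hz
      rw [hz]
      exact hS hk)
    simpa using this
  have hUb : ∀ y, ‖U y‖ₑ ^ 2 ≤ ENNReal.ofReal (B ^ 2) * ∑ k ∈ S, ENNReal.ofReal (bet a k y) := by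
    intro y
    obtain ⟨s0, s1⟩ := h2.2.1 a y S hS
    obtain ⟨g0, g1⟩ := h2.2.2.1 g a y
    rw [← ENNReal.ofReal_sum_of_nonneg fun k hk => (hbet k hk y).1,
      ← ENNReal.ofReal_mul (by positivity), ← ofReal_norm, ← ENNReal.ofReal_pow
      (norm_nonneg _)]
    refine ENNReal.ofReal_le_ofReal ?_
    have e1 : ‖U y‖ = ‖ψ y‖ * (gg g a y * ∑ k ∈ S, bet a k y) := by
      rw [hU]
      simp only [norm_mul, ee_norm, mul_one]
      rw [Complex.norm_real, Real.norm_eq_abs, abs_of_nonneg (mul_nonneg g0 s0)]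
    rw [e1, mul_pow]
    have e2 : (gg g a y * ∑ k ∈ S, bet a k y) ^ 2 ≤ ∑ k ∈ S, bet a k y := by
      have f1 : gg g a y * ∑ k ∈ S, bet a k y ≤ ∑ k ∈ S, bet a k y := mul_le_of_le_one_left s0 g1
      have f0 : 0 ≤ gg g a y * ∑ k ∈ S, bet a k y := mul_nonneg g0 s0
      have f2 : gg g a y * ∑ k ∈ S, bet a k y ≤ 1 := f1.trans s1
      nlinarith
    have e3 : ‖ψ y‖ ^ 2 ≤ B ^ 2 := pow_le_pow_left₀ (norm_nonneg _) (hψb y) 2
    exact mul_le_mul e3 e2 (sq_nonneg _) (by positivity)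
  have hint : ∀ k ∈ S, ∫⁻ y, ENNReal.ofReal (bet a k y) ≤ ENNReal.ofReal (4 * (4 ^ a)⁻¹) := by
    intro k hk
    rw [← h3.2.1 a k]
    have hcm : MeasurableSet (cell a k) := measurableSet_Icc.prod measurableSet_Icc
    rw [← lintegral_indicator_one hcm]
    refine lintegral_mono fun y => ?_
    by_cases hy : y ∈ cell a k
    · rw [indicator_of_mem hy]
      simp only [Pi.one_apply]
      rw [← ENNReal.ofReal_one]
      exact ENNReal.ofReal_le_ofReal (hbet k hk y).2
    · rw [indicator_of_notMem hy]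
      have : bet a k y = 0 := by
        by_contra hne
        obtain ⟨q1, q2⟩ := h1.2.2.1 a k y hne
        exact hy (h3.2.2.1 a k y q1.le q2.le)
      rw [this, ENNReal.ofReal_zero]
  have hfin : ∫⁻ y, ‖U y‖ₑ ^ 2 ≤ ENNReal.ofReal (B ^ 2) * (S.card * ENNReal.ofReal (4 * (4 ^ a)⁻¹)) := by
    calc ∫⁻ y, ‖U y‖ₑ ^ 2 ≤ ∫⁻ y, ENNReal.ofReal (B ^ 2) * ∑ k ∈ S, ENNReal.ofReal (bet a k y) :=
          lintegral_mono hUb
      _ = ENNReal.ofReal (B ^ 2) * ∑ k ∈ S, ∫⁻ y, ENNReal.ofReal (bet a k y) := by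
          rw [lintegral_const_mul, lintegral_finsetSum]
          · intro k _
            exact ((hbc k).measurable).ennreal_ofReal
          · exact Finset.measurable_sum _ fun k _ => ((hbc k).measurable).ennreal_ofReal
      _ ≤ ENNReal.ofReal (B ^ 2) * ∑ k ∈ S, ENNReal.ofReal (4 * (4 ^ a)⁻¹) := by
          gcongr with k hk
          exact hint k hk
      _ = _ := by rw [Finset.sum_const, nsmul_eq_mul]
  calc ENNReal.ofReal ((2 * Real.pi) ^ 2) * ∫⁻ y, ‖U y‖ₑ ^ 2
      ≤ ENNReal.ofReal ((2 * Real.pi) ^ 2) *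
        (ENNReal.ofReal (B ^ 2) * (S.card * ENNReal.ofReal (4 * (4 ^ a)⁻¹))) := by
        gcongr
    _ = ENNReal.ofReal ((2 * Real.pi) ^ 2 * (B ^ 2 * 4) * (4 ^ a)⁻¹ * S.card) := by
        have e1 : (S.card : ℝ≥0∞) = ENNReal.ofReal (S.card : ℝ) := by
          rw [ENNReal.ofReal_natCast]
        rw [e1, ← ENNReal.ofReal_mul (by positivity), ← ENNReal.ofReal_mul (by positivity),
          ← ENNReal.ofReal_mul (by positivity)]
        congr 1
        ring

end Pool.Agent.W479.PC
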